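import Pool.Agent.helper69.AD.GS5

/-!
FD2: the twist deformation stays admissible for a transverse pants decomposition.
-/

open scoped MatrixGroups LinearAlgebra.Projectivization
open Matrix UpperHalfPlane

namespace AdSBend

noncomputable section

open LeafSystem

theorem FD2_trc_eq (g : SL(2, ℝ)) : trc g = g.1.trace := by
  rw [Matrix.trace_fin_two]; rfl

theorem FD2_trc_neg (g : SL(2, ℝ)) : trc (-g) = -trc g := by
  unfold trc
  have h : ∀ i j, (-g).1 i j = -(g.1 i j) := fun i j => rfl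
  rw [h, h]; ring

theorem FD2_trc_conj (P g : SL(2, ℝ)) : trc (P * g * P⁻¹) = trc g := by
  rw [FD2_trc_eq, FD2_trc_eq]
  have h1 : (P * g * P⁻¹ : SL(2, ℝ)).1 = P.1 * g.1 * (P⁻¹).1 := rfl
  have h2 : (P⁻¹).1 * P.1 = 1 := by
    have : (P⁻¹ * P : SL(2, ℝ)).1 = (P⁻¹).1 * P.1 := rfl
    rw [← this, inv_mul_cancel]; rfl
  rw [h1, Matrix.trace_mul_comm, ← Matrix.mul_assoc, h2, Matrix.one_mul]

theorem FD2_trc_inv (g : SL(2, ℝ)) : trc g⁻¹ = trc g := by
  unfold trc
  have h : (g⁻¹).1 = Matrix.adjugate g.1 := Matrix.SpecialLinearGroup.coe_inv g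
  rw [h, Matrix.adjugate_fin_two]
  simp
  ring

theorem FD2_abs_trc {g h : SL(2, ℝ)} (hgh : PEq g h) : |trc g| = |trc h| := by
  rcases hgh with h1 | h1
  · rw [h1]
  · rw [h1, FD2_trc_neg, abs_neg]

theorem FD2_pos_cases (g : SL(2, ℝ)) : PEq (pos g) g := by
  unfold pos PEq
  split_ifs
  · exact Or.inl rfl
  · exact Or.inr rfl

theorem FD2_PEq_mul {g h g' h' : SL(2, ℝ)} (h1 : PEq g g') (h2 : PEq h h') :
    PEq (g * h) (g' * h') := by
  rcases h1 with h1 | h1 <;> rcases h2 with h2 | h2 <;> subst h1 <;> subst h2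
  · exact Or.inl rfl
  · exact Or.inr (by rw [mul_neg])
  · exact Or.inr (by rw [neg_mul])
  · exact Or.inl (by rw [neg_mul_neg])

theorem FD2_PEq_symm {g h : SL(2, ℝ)} (h1 : PEq g h) : PEq h g := by
  rcases h1 with h1 | h1
  · exact Or.inl h1.symm
  · exact Or.inr (by rw [h1, neg_neg])

theorem FD2_PEq_trans {g h k : SL(2, ℝ)} (h1 : PEq g h) (h2 : PEq h k) : PEq g k := by
  rcases h1 with h1 | h1 <;> rcases h2 with h2 | h2 <;> subst h1 <;> subst h2
  · exact Or.inl rfl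
  · exact Or.inr rfl
  · exact Or.inr rfl
  · exact Or.inl (neg_neg _)

theorem FD2_PEq_refl (g : SL(2, ℝ)) : PEq g g := Or.inl rfl

/-- the absolute trace of a product in a pair of pants -/
theorem FD2_trc_prod {Γ : Subgroup SL(2, ℝ)} {r : SL(2, ℝ) → SL(2, ℝ)} (hr : IsPRep Γ r)
    {a b c : SL(2, ℝ)} (ha : a ∈ Γ) (hb : b ∈ Γ) (hc : c ∈ Γ) (habc : PEq (a * b * c) 1) :
    |trc (r a * r b)| = |trc (r c)| := by
  have h1 : PEq (r 1) 1 := by
    have h := hr 1 Γ.one_mem 1 Γ.one_mem 1 Γ.one_mem (Or.inl (by rw [mul_one]))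
    rcases h with h | h
    · exact Or.inl (by simpa using h)
    · right
      have h2 : r 1 * 1 = r 1 * (-(r 1)) := by rw [mul_one, mul_neg]; exact h
      have h3 := mul_left_cancel h2
      have h4 := congrArg (fun t => -t) h3
      simp only [neg_neg] at h4
      exact h4.symm
  have h2 : PEq (r 1) (r (a * b) * r c) :=
    hr (a * b) (Γ.mul_mem ha hb) c hc 1 Γ.one_mem (FD2_PEq_symm habc)
  have h3 : PEq (r (a * b)) (r a * r b) :=
    hr a ha b hb (a * b) (Γ.mul_mem ha hb) (Or.inl rfl)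
  have h4 : PEq (r a * r b * r c) 1 :=
    FD2_PEq_trans (FD2_PEq_mul (FD2_PEq_symm h3) (FD2_PEq_refl _))
      (FD2_PEq_trans (FD2_PEq_symm h2) h1)
  have h5 : PEq (r a * r b) (r c)⁻¹ := by
    have h6 := FD2_PEq_mul h4 (FD2_PEq_refl (r c)⁻¹)
    rwa [mul_assoc, mul_inv_cancel, mul_one, one_mul] at h6
  rw [FD2_abs_trc h5, FD2_trc_inv]

/-- a continuous function without zeros keeps its sign -/
theorem FD2_sign {X : Type*} [TopologicalSpace X] [PreconnectedSpace X] {g : X → ℝ}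
    (hg : Continuous g) (h0 : ∀ x, g x ≠ 0) (x₀ : X) (hx : g x₀ < 0) : ∀ x, g x < 0 := by
  intro x
  by_contra hcon
  push Not at hcon
  obtain ⟨y, hy⟩ := mem_range_of_exists_le_of_exists_ge hg ⟨x₀, hx.le⟩ ⟨x, hcon⟩
  exact h0 y hy

theorem FD2_mul_cont {X : Type*} [TopologicalSpace X] {a x : X → SL(2, ℝ)}
    (ha : ∀ i j, Continuous fun T => (a T).1 i j) (hx : ∀ i j, Continuous fun T => (x T).1 i j)
    (i j : Fin 2) : Continuous fun T => (a T * x T).1 i j := by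
  have h : ∀ T, (a T * x T).1 i j = (a T).1 i 0 * (x T).1 0 j + (a T).1 i 1 * (x T).1 1 j := by
    intro T
    show ((a T).1 * (x T).1) i j = _
    rw [Matrix.mul_apply, Fin.sum_univ_two]
  simp_rw [h]
  exact ((ha i 0).mul (hx 0 j)).add ((ha i 1).mul (hx 1 j))

theorem FD2_trc_cont {X : Type*} [TopologicalSpace X] {a : X → SL(2, ℝ)}
    (ha : ∀ i j, Continuous fun T => (a T).1 i j) : Continuous fun T => trc (a T) :=
  (ha 0 0).add (ha 1 1)

theorem FD2_pos_cont {X : Type*} [TopologicalSpace X] [PreconnectedSpace X] {a : X → SL(2, ℝ)}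
    (ha : ∀ i j, Continuous fun T => (a T).1 i j) (h2 : ∀ T, 2 < |trc (a T)|) (i j : Fin 2) :
    Continuous fun T => (pos (a T)).1 i j := by
  have hc := FD2_trc_cont ha
  have h0 : ∀ T, trc (a T) ≠ 0 := fun T h => by
    have := h2 T
    rw [h, abs_zero] at this
    linarith
  by_cases h : ∃ x₀, trc (a x₀) < 0
  · obtain ⟨x₀, hx₀⟩ := h
    have hneg := FD2_sign hc h0 x₀ hx₀
    have : ∀ T, (pos (a T)).1 i j = -((a T).1 i j) := by
      intro T
      have h1 : pos (a T) = -(a T) := by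
        unfold pos
        rw [if_neg (not_le.2 (hneg T))]
      rw [h1]; rfl
    simp_rw [this]
    exact (ha i j).neg
  · push Not at h
    have : ∀ T, (pos (a T)).1 i j = (a T).1 i j := by
      intro T
      have h1 : pos (a T) = a T := by
        unfold pos
        rw [if_pos (h T)]
      rw [h1]
    simp_rw [this]
    exact ha i j

theorem FD2_len_cont {X : Type*} [TopologicalSpace X] {a : X → SL(2, ℝ)}
    (ha : ∀ i j, Continuous fun T => (a T).1 i j) (h2 : ∀ T, 2 < |trc (a T)|) :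
    Continuous fun T => len (a T) := by
  have hc := FD2_trc_cont ha
  unfold len
  refine continuous_const.mul (Continuous.log ?_ ?_)
  · exact ((hc.abs).add (((hc.abs.pow 2).sub continuous_const).sqrt)).div_const 2
  · intro T
    have h3 := h2 T
    have h4 := Real.sqrt_nonneg (|trc (a T)| ^ 2 - 4)
    have : 0 < (|trc (a T)| + Real.sqrt (|trc (a T)| ^ 2 - 4)) / 2 := by linarith
    exact this.ne'

theorem FD2_axis_cont {X : Type*} [TopologicalSpace X] [PreconnectedSpace X] (hTW1 : TW1_stmt)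
    {a : X → SL(2, ℝ)} (ha : ∀ i j, Continuous fun T => (a T).1 i j)
    (h2 : ∀ T, 2 < |trc (a T)|) (i j : Fin 2) :
    Continuous fun T => (axis (a T)) i j := by
  have h : ∀ T, (axis (a T)) i j = (Real.sinh (len (a T) / 2))⁻¹ *
      ((pos (a T)).1 i j - (|trc (a T)| / 2) * (1 : Matrix (Fin 2) (Fin 2) ℝ) i j) := by
    intro T
    unfold axis
    rw [Matrix.smul_apply, Matrix.sub_apply, Matrix.smul_apply, smul_eq_mul, smul_eq_mul]
  simp_rw [h]
  refine Continuous.mul (Continuous.inv₀ ?_ ?_) ?_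
  · exact Real.continuous_sinh.comp ((FD2_len_cont ha h2).div_const 2)
  · intro T
    have h3 := (hTW1.2.2.2 (a T) (h2 T)).2.2.2.1
    exact (Real.sinh_pos_iff.2 (by linarith)).ne'
  · exact (FD2_pos_cont ha h2 i j).sub (((FD2_trc_cont ha).abs.div_const 2).mul continuous_const)

/-- two continuous families of hyperbolic elements with hyperbolic product -/
theorem FD2_key {X : Type*} [TopologicalSpace X] [PreconnectedSpace X] (hTW1 : TW1_stmt)
    (hFA2 : FA2_stmt) {a x : X → SL(2, ℝ)} (ha : ∀ i j, Continuous fun T => (a T).1 i j)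
    (hx : ∀ i j, Continuous fun T => (x T).1 i j) (ha2 : ∀ T, 2 < |trc (a T)|)
    (hx2 : ∀ T, 2 < |trc (x T)|) (hax : ∀ T, 2 < |trc (a T * x T)|) (x₀ : X)
    (h0 : trc (pos (a x₀) * pos (x x₀)) < 0) (h1 : ∃ F, IsSeamFrame (a x₀) (x x₀) F) :
    ∀ T, trc (pos (a T) * pos (x T)) < 0 ∧ ∃ F, IsSeamFrame (a T) (x T) F := by
  have habs : ∀ T, 2 < |trc (pos (a T) * pos (x T))| := by
    intro T
    rw [FD2_abs_trc (FD2_PEq_mul (FD2_pos_cases (a T)) (FD2_pos_cases (x T)))]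
    exact hax T
  have hcont : Continuous fun T => trc (pos (a T) * pos (x T)) :=
    FD2_trc_cont (a := fun T => pos (a T) * pos (x T))
      (fun i j => FD2_mul_cont (a := fun T => pos (a T)) (x := fun T => pos (x T))
        (FD2_pos_cont ha ha2) (FD2_pos_cont hx hx2) i j)
  have hneg := FD2_sign hcont (fun T h => by
    have := habs T
    rw [h, abs_zero] at this
    linarith) x₀ h0
  have hip : ∀ T, ip (axis (a T)) (axis (x T)) < -1 := by
    intro T
    have h3 := habs T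
    rw [abs_of_neg (hneg T)] at h3
    have h4 := hFA2.1 (a T) (x T) (ha2 T) (hx2 T)
    rw [h4] at h3
    have hla := (hTW1.2.2.2 (a T) (ha2 T)).2.2.2.1
    have hlx := (hTW1.2.2.2 (x T) (hx2 T)).2.2.2.1
    have s1 : 0 < Real.sinh (len (a T) / 2) := Real.sinh_pos_iff.2 (by linarith)
    have s2 : 0 < Real.sinh (len (x T) / 2) := Real.sinh_pos_iff.2 (by linarith)
    have c1 : Real.sinh (len (a T) / 2) < Real.cosh (len (a T) / 2) := Real.sinh_lt_cosh _
    have c2 : Real.sinh (len (x T) / 2) < Real.cosh (len (x T) / 2) := Real.sinh_lt_cosh _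
    have hss : 0 < Real.sinh (len (a T) / 2) * Real.sinh (len (x T) / 2) := mul_pos s1 s2
    have hcc : Real.sinh (len (a T) / 2) * Real.sinh (len (x T) / 2)
        < Real.cosh (len (a T) / 2) * Real.cosh (len (x T) / 2) :=
      mul_lt_mul'' c1 c2 s1.le s2.le
    by_contra hcon
    push Not at hcon
    have h5 : -(Real.sinh (len (a T) / 2) * Real.sinh (len (x T) / 2)) ≤
        Real.sinh (len (a T) / 2) * Real.sinh (len (x T) / 2) * ip (axis (a T)) (axis (x T)) := by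
      nlinarith
    linarith
  have hne : ∀ T, (axis (a T) + axis (x T)) 0 1 - (axis (a T) + axis (x T)) 1 0 ≠ 0 :=
    fun T => (hFA2.2.2.1 (a T) (x T) (ha2 T) (hx2 T) (hip T)).1
  have hiff : ∀ T, (∃ F, IsSeamFrame (a T) (x T) F) ↔
      0 < (axis (a T) + axis (x T)) 0 1 - (axis (a T) + axis (x T)) 1 0 :=
    fun T => (hFA2.2.2.1 (a T) (x T) (ha2 T) (hx2 T) (hip T)).2
  have hhc : Continuous fun T =>
      -((axis (a T) + axis (x T)) 0 1 - (axis (a T) + axis (x T)) 1 0) := by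
    have e : ∀ T, -((axis (a T) + axis (x T)) 0 1 - (axis (a T) + axis (x T)) 1 0)
        = -((axis (a T)) 0 1 + (axis (x T)) 0 1 - ((axis (a T)) 1 0 + (axis (x T)) 1 0)) :=
      fun T => rfl
    simp_rw [e]
    exact (((FD2_axis_cont hTW1 ha ha2 0 1).add (FD2_axis_cont hTW1 hx hx2 0 1)).sub
      ((FD2_axis_cont hTW1 ha ha2 1 0).add (FD2_axis_cont hTW1 hx hx2 1 0))).neg
  have hall := FD2_sign hhc (fun T h => hne T (neg_eq_zero.1 h)) x₀ (by
    have := (hiff x₀).1 h1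
    linarith)
  exact fun T => ⟨hneg T, (hiff T).2 (by have := hall T; linarith)⟩

theorem FD2 (hFD1 : FD1_stmt) (hFC6 : FC6_stmt) (hTW1 : TW1_stmt) (hTW2 : TW2_stmt)
    (hTW3 : TW3_stmt) (hTF2 : TF2_stmt) (hFA2 : FA2_stmt) (hGM1 : GM1_stmt) (hBD11 : BD11_stmt)
    (hPN3 : PN3_stmt) (hPN5 : PN5_stmt) : FD2_stmt := by
  classical
  intro Γ hΓ S S' f r z₀ hconj hoff hcross K _ _ cls A hcga hcsw hA
  have hprep : IsPRep Γ r := (hBD11 Γ f r hconj).2.2.2.2.2
  have hadm' : S'.AdmS r := hTF2 Γ hΓ S' f r hconj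
  have hadm : S.AdmS r := hTF2 Γ hΓ S f r hconj
  have hlen' : ∀ p ∈ S'.L, 2 < |trc (r (gen Γ p))| := hadm'.1.2.1
  have htw : ∀ T : K → ℝ, IsPRep Γ (fun γ => A T (γ • z₀) * r γ) := by
    intro T
    have h := (hTW2 Γ hΓ S' r (fun p => T (cls p)) z₀ hprep hlen'
      (fun γ hγ p hp => by rw [hcga γ hγ p hp]) (fun p hp => by rw [hcsw p hp]) hoff).2
      (A T) (hA T)
    exact h.1
  have hA0 : ∀ z, S'.OffPt z → A 0 z = 1 := by
    have h := (hTW2 Γ hΓ S' r (fun p => (0 : K → ℝ) (cls p)) z₀ hprep hlen'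
      (fun γ hγ p hp => by rw [hcga γ hγ p hp]) (fun p hp => by rw [hcsw p hp]) hoff).2
      (A 0) (hA 0)
    exact h.2.2.2.2 rfl
  have hoffγ : ∀ γ ∈ Γ, S'.OffPt (γ • z₀) := fun γ hγ => (hPN5 Γ S').2.2.1 γ hγ z₀ hoff
  -- continuity
  have hnear : ∀ p : Bd × Bd, ∃ z : ℍ, p ∈ S'.L → S'.Near p z := by
    intro p
    by_cases hp : p ∈ S'.L
    · obtain ⟨z, hz⟩ := (hPN3 Γ hΓ S' p hp).1
      exact ⟨z, fun _ => hz⟩
    · exact ⟨z₀, fun h => absurd h hp⟩
  choose w hw using hnear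
  have hcont : ∀ z, S'.OffPt z → ∀ i j, Continuous fun T : K → ℝ => (A T z).1 i j := by
    intro z hz i j
    have h := hTW3 Γ hΓ S' K cls r z₀ A
      (fun T p => (A T (w p)).1 * axis (r (gen Γ p)) * ((A T (w p))⁻¹).1) hprep hlen' hcga hcsw
      hoff hA (fun T p hp w' hw' => by
        have h1 : A T (w p) = A T w' :=
          (hA T).1.1 _ _ (hw p hp).1 hw'.1 ((hPN3 Γ hΓ S' p hp).2.2.1 _ _ (hw p hp) hw')
        show (A T (w p)).1 * axis (r (gen Γ p)) * ((A T (w p))⁻¹).1 = _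
        rw [h1]) z hz
    exact (h.1 i j).continuous
  have hrc : ∀ γ ∈ Γ, ∀ i j, Continuous fun T : K → ℝ => (A T (γ • z₀) * r γ).1 i j :=
    fun γ hγ i j => FD2_mul_cont (a := fun T : K → ℝ => A T (γ • z₀)) (x := fun _ => r γ)
      (hcont _ (hoffγ γ hγ)) (fun _ _ => continuous_const) i j
  -- hyperbolicity of the leaves of S
  have hhyp : ∀ p ∈ S.L, ∀ T : K → ℝ, 2 < |trc (A T (gen Γ p • z₀) * r (gen Γ p))| := by
    intro p hp T
    obtain ⟨n, B, H, hB1, -, -, -, hH, -, hfd⟩ := hFD1 Γ hΓ S' f r z₀ hconj hoff p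
      (S.closed p hp) (by
        obtain ⟨b, hb, hl⟩ := hcross p hp
        exact ⟨b, hb, hl⟩)
    have h := (hfd (fun p => T (cls p)) (A T) (fun γ hγ p hp => by rw [hcga γ hγ p hp])
      (fun p hp => by rw [hcsw p hp]) (hA T) 0 (w (B 0)) (hw _ (hB1 0).1)).1
    rw [FD2_abs_trc h, FD2_trc_conj]
    have hpos := hFC6.2.2.2 (fun k => (H k)⁻¹ * H (k + 1)) (fun k => T (cls (B k))) 0 n hH
    have := hFC6.2.1 _ hpos
    exact lt_of_lt_of_le this (le_abs_self _)
  have hgen : ∀ p ∈ S.L, gen Γ p ∈ Γ := fun p hp => (hGM1 Γ hΓ p (S.closed p hp)).1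
  have hhex : ∀ p q s, S.Hex p q s → ∀ T : K → ℝ,
      trc (pos (A T (gen Γ p • z₀) * r (gen Γ p)) * pos (A T (gen Γ q • z₀) * r (gen Γ q))) < 0 ∧
      ∃ F, IsSeamFrame (A T (gen Γ p • z₀) * r (gen Γ p)) (A T (gen Γ q • z₀) * r (gen Γ q)) F := by
    intro p q s hpqs
    have hp : p ∈ S.L := hpqs.1.1
    have hq : q ∈ S.L := hpqs.2.1.1
    have hs : s ∈ S.L := hpqs.2.2.1.1
    have e1 : A 0 (gen Γ p • z₀) * r (gen Γ p) = r (gen Γ p) := by
      rw [hA0 _ (hoffγ _ (hgen p hp)), one_mul]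
    have e2 : A 0 (gen Γ q • z₀) * r (gen Γ q) = r (gen Γ q) := by
      rw [hA0 _ (hoffγ _ (hgen q hq)), one_mul]
    refine FD2_key hTW1 hFA2 (a := fun T : K → ℝ => A T (gen Γ p • z₀) * r (gen Γ p))
      (x := fun T : K → ℝ => A T (gen Γ q • z₀) * r (gen Γ q)) (hrc _ (hgen p hp))
      (hrc _ (hgen q hq)) (hhyp p hp) (hhyp q hq) ?_ 0 ?_ ?_
    · intro T
      have h := FD2_trc_prod (htw T) (hgen p hp) (hgen q hq) (hgen s hs) hpqs.2.2.2.2
      show 2 < |trc (A T (gen Γ p • z₀) * r (gen Γ p) * (A T (gen Γ q • z₀) * r (gen Γ q)))|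
      rw [h]
      exact hhyp s hs T
    · show trc (pos (A 0 (gen Γ p • z₀) * r (gen Γ p)) *
        pos (A 0 (gen Γ q • z₀) * r (gen Γ q))) < 0
      rw [e1, e2]
      exact hadm.1.2.2 p q s hpqs
    · show ∃ F, IsSeamFrame (A 0 (gen Γ p • z₀) * r (gen Γ p))
        (A 0 (gen Γ q • z₀) * r (gen Γ q)) F
      rw [e1, e2]
      exact hadm.2 p q s hpqs
  intro T
  exact ⟨⟨htw T, fun p hp => hhyp p hp T, fun p q s h => (hhex p q s h T).1⟩,
    fun p q s h => (hhex p q s h T).2⟩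

end

end AdSBend
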