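import Pool.Agent.helper69.AD.GS2

/-!
GM4: local finiteness of leaf systems.
-/

open scoped MatrixGroups LinearAlgebra.Projectivization
open Matrix UpperHalfPlane

namespace AdSBend

noncomputable section

/-- the point `i * exp s` -/
def GM4_v (s : ℝ) : ℍ := ⟨⟨0, Real.exp s⟩, Real.exp_pos s⟩

theorem GM4_v_cont : Continuous GM4_v := by
  unfold GM4_v
  refine Continuous.upperHalfPlaneMk (f := fun s : ℝ => (⟨0, Real.exp s⟩ : ℂ)) ?_ _
  have : (fun s : ℝ => (⟨0, Real.exp s⟩ : ℂ)) = fun s : ℝ => (Real.exp s : ℂ) * Complex.I := by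
    funext s
    apply Complex.ext
    · simp
    · simp [Complex.exp_ofReal_re]
  rw [this]
  exact (Complex.continuous_ofReal.comp Real.continuous_exp).mul continuous_const

theorem GM4_Dm_v (h5 : PT5_stmt) (t s : ℝ) : Dm t • GM4_v s = GM4_v (s + t) := by
  apply UpperHalfPlane.ext
  rw [h5.2.2 t (GM4_v s)]
  apply Complex.ext
  · simp [GM4_v, Complex.exp_ofReal_im]
  · simp [GM4_v, Real.exp_add, Complex.exp_ofReal_re, mul_comm]

theorem GM4_neg_smul (g : SL(2, ℝ)) (z : ℍ) : (-g) • z = g • z := by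
  apply UpperHalfPlane.ext
  rw [coe_specialLinearGroup_apply, coe_specialLinearGroup_apply]
  have h00 : (-g) 0 0 = -(g 0 0) := rfl
  have h01 : (-g) 0 1 = -(g 0 1) := rfl
  have h10 : (-g) 1 0 = -(g 1 0) := rfl
  have h11 : (-g) 1 1 = -(g 1 1) := rfl
  rw [h00, h01, h10, h11]
  simp only [map_neg, Complex.ofReal_neg, neg_mul]
  rw [← neg_add, ← neg_add, neg_div_neg_eq]

theorem GM4_zpow {g F : SL(2, ℝ)} {t : ℝ} (hstep : ∀ u, g • F • GM4_v u = F • GM4_v (u + t))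
    (n : ℤ) (u : ℝ) : g ^ n • F • GM4_v u = F • GM4_v (u + n * t) := by
  induction n using Int.induction_on generalizing u with
  | zero => simp
  | succ n ih =>
    rw [_root_.zpow_add_one, mul_smul, hstep, ih]
    congr 2
    push_cast
    ring
  | pred n ih =>
    have h1 : g⁻¹ • F • GM4_v u = F • GM4_v (u - t) := by
      rw [inv_smul_eq_iff, hstep, sub_add_cancel]
    rw [_root_.zpow_sub_one, mul_smul, h1, ih]
    congr 2
    push_cast
    ring

theorem GM4_move (h5 : PT5_stmt) (h8 : BD8_stmt) {g : SL(2, ℝ)} {p : Bd × Bd}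
    (hg : Attracts g p) :
    ∃ C : Set ℍ, IsCompact C ∧ ∀ z : ℍ, side z p.1 p.2 = 0 → ∃ n : ℤ, g ^ n • z ∈ C := by
  obtain ⟨F, t, hF, ht, hP⟩ := (h8.1 g p).1 hg
  have hact : ∀ z : ℍ, g • z = (F * Dm t * F⁻¹) • z := by
    intro z
    rcases hP with h | h
    · rw [h]
    · rw [h]; exact GM4_neg_smul _ _
  have hstep : ∀ u, g • F • GM4_v u = F • GM4_v (u + t) := by
    intro u
    rw [hact, mul_smul, mul_smul, inv_smul_smul, GM4_Dm_v h5]
  refine ⟨(fun s => F • GM4_v s) '' Set.Icc 0 t, ?_, ?_⟩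
  · refine isCompact_Icc.image ?_
    exact (isometry_smul ℍ F).continuous.comp GM4_v_cont
  · intro z hz
    have hzF : z = F • (F⁻¹ • z) := (smul_inv_smul F z).symm
    set w : ℍ := F⁻¹ • z with hw
    have h1 := h5.1 F p w hF
    rw [← hzF] at h1
    have hre : w.re = 0 := by
      rcases lt_trichotomy w.re 0 with h | h | h
      · have := h1.2.2 h; linarith
      · exact h
      · have := h1.1.2 h; linarith
    have hwv : w = GM4_v (Real.log w.im) := by
      apply UpperHalfPlane.ext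
      apply Complex.ext
      · simpa [GM4_v] using hre
      · simp [GM4_v, Real.exp_log w.im_pos]
    set u := Real.log w.im with hu
    refine ⟨-⌊u / t⌋, u + ((-⌊u / t⌋ : ℤ) : ℝ) * t, ?_, ?_⟩
    · have h2 := Int.floor_le (u / t)
      have h3 := Int.lt_floor_add_one (u / t)
      have h4 : u / t * t = u := div_mul_cancel₀ u ht.ne'
      push_cast
      constructor
      · nlinarith
      · nlinarith
    · show F • GM4_v _ = _
      rw [← GM4_zpow hstep, ← hwv, ← hzF]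

theorem GM4_zpow_fix {g : SL(2, ℝ)} {x : Bd} (h : g • x = x) (n : ℤ) : g ^ n • x = x := by
  have : g ∈ MulAction.stabilizer SL(2, ℝ) x := h
  exact (MulAction.stabilizer SL(2, ℝ) x).zpow_mem this n

theorem GM4 (h1 : GM1_stmt) (hp1 : PT1_stmt) (h5 : PT5_stmt) (h8 : BD8_stmt) : GM4_stmt := by
  intro Γ hΓ S K hK
  obtain ⟨s, hs⟩ := S.finite
  have key : ∀ q : Bd × Bd, {p : Bd × Bd | p ∈ S.L ∧ (∃ z ∈ K, side z p.1 p.2 = 0) ∧
      ∃ γ ∈ Γ, (γ • p.1, γ • p.2) = q}.Finite := by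
    intro q
    by_cases hne : {p : Bd × Bd | p ∈ S.L ∧ (∃ z ∈ K, side z p.1 p.2 = 0) ∧
      ∃ γ ∈ Γ, (γ • p.1, γ • p.2) = q} = ∅
    · rw [hne]; exact Set.finite_empty
    · obtain ⟨p0, hp0, -, γ0, hγ0, hq0⟩ := Set.nonempty_iff_ne_empty.2 hne
      have hqL : q ∈ S.L := by rw [← hq0]; exact S.inv γ0 hγ0 p0 hp0
      have hgen := h1 Γ hΓ q (S.closed q hqL)
      obtain ⟨hgΓ, hgA, -⟩ := hgen
      obtain ⟨C, hC, hCm⟩ := GM4_move h5 h8 hgA
      have hfin := hΓ.proper (K ∪ C) (hK.union hC)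
      refine (hfin.image (fun δ : SL(2, ℝ) => (δ⁻¹ • q.1, δ⁻¹ • q.2))).subset ?_
      rintro p ⟨-, ⟨z, hz, hzp⟩, γ, hγ, hγq⟩
      have e1 : γ • p.1 = q.1 := congrArg Prod.fst hγq
      have e2 : γ • p.2 = q.2 := congrArg Prod.snd hγq
      have hz2 : side (γ • z) q.1 q.2 = 0 := by
        rw [← e1, ← e2]
        exact (hp1 γ z p.1 p.2).2.2.1.2 hzp
      obtain ⟨n, hn⟩ := hCm _ hz2
      refine ⟨gen Γ q ^ n * γ, ⟨Γ.mul_mem (Γ.zpow_mem hgΓ n) hγ, z, Or.inl hz, ?_⟩, ?_⟩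
      · rw [mul_smul]; exact Or.inr hn
      · have f1 := GM4_zpow_fix hgA.2.1 n
        have f2 := GM4_zpow_fix hgA.2.2.1 n
        apply Prod.ext
        · show (gen Γ q ^ n * γ)⁻¹ • q.1 = p.1
          rw [inv_smul_eq_iff, mul_smul, e1, f1]
        · show (gen Γ q ^ n * γ)⁻¹ • q.2 = p.2
          rw [inv_smul_eq_iff, mul_smul, e2, f2]
  refine (s.finite_toSet.biUnion (fun q _ => key q)).subset ?_
  rintro p ⟨hp, hz⟩
  obtain ⟨γ, hγ, hγs⟩ := hs p hp
  exact Set.mem_biUnion (Finset.mem_coe.2 hγs) ⟨hp, hz, γ, hγ, rfl⟩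

end

end AdSBend
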