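import Pool.Agent.helper69.AD.GS6

/-!
XE8: twist deformations are earthquakes of marked structures.
-/

open scoped MatrixGroups LinearAlgebra.Projectivization
open Matrix UpperHalfPlane

namespace AdSBend

noncomputable section

open LeafSystem

theorem XE8_neg_smul (g : SL(2, ℝ)) (x : Bd) : (-g) • x = g • x := by
  induction x using Projectivization.ind with
  | h v hv =>
    rw [Projectivization.smul_mk, Projectivization.smul_mk, Projectivization.mk_eq_mk_iff']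
    refine ⟨-1, ?_⟩
    funext i
    simp [Matrix.SpecialLinearGroup.smul_def]

theorem XE8_peq {g h : SL(2, ℝ)} (H : PEq g h) (x : Bd) : g • x = h • x := by
  rcases H with H | H
  · rw [H]
  · rw [H, XE8_neg_smul]

theorem XE8_twS_zero (g : SL(2, ℝ)) : twS g (-0) = 1 := by
  have h0 : Real.cosh (-0 / 2) • (1 : Matrix (Fin 2) (Fin 2) ℝ) + Real.sinh (-0 / 2) • axis g
      = 1 := by
    simp
  have h : (Real.cosh (-0 / 2) • (1 : Matrix (Fin 2) (Fin 2) ℝ)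
      + Real.sinh (-0 / 2) • axis g).det = 1 := by
    rw [h0, Matrix.det_one]
  have h2 : twS g (-0) = ⟨_, h⟩ := dif_pos h
  rw [h2]
  exact Subtype.ext h0

theorem XE8_vis {Γ : Subgroup SL(2, ℝ)} (h2 : BD2_stmt) (h1 : PT1_stmt) (S : LeafSystem Γ)
    {γ : SL(2, ℝ)} (hγ : γ ∈ Γ) {z : ℍ} {c : Bd} (h : S.Vis z c) : S.Vis (γ • z) (γ • c) := by
  intro p hp hs
  have hq := S.inv γ⁻¹ (Γ.inv_mem hγ) p hp
  apply h _ hq
  have hp1 : p.1 = γ • (γ⁻¹ • p.1) := by rw [smul_inv_smul]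
  have hp2 : p.2 = γ • (γ⁻¹ • p.2) := by rw [smul_inv_smul]
  unfold SepIdeal at hs ⊢
  rw [hp1, hp2, (h1 γ z (γ⁻¹ • p.1) (γ⁻¹ • p.2)).1, (h1 γ z (γ⁻¹ • p.1) (γ⁻¹ • p.2)).2.1,
    h2, h2] at hs
  exact hs

theorem XE8 (hBD2 : BD2_stmt) (hPT1 : PT1_stmt) (hPN5 : PN5_stmt) (hTF1 : TF1_stmt)
    (hTW2 : TW2_stmt) (hXE1 : XE1_stmt) (hXE2 : XE2_stmt) (hXE4 : XE4_stmt) (hXE6 : XE6_stmt)
    (hXE7 : XE7_stmt) : XE8_stmt := by
  intro Γ hΓ S f r T z₀ A hconj hz₀ hTga hTsw hTw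
  classical
  have hadm := hTF1 Γ hΓ S f r hconj
  obtain ⟨hP, htr, -⟩ := hadm
  have hTW := (hTW2 Γ hΓ S r T z₀ hP htr hTga hTsw hz₀).2 A hTw
  obtain ⟨-, hcoc, -⟩ := hTW
  have hPM := hTw.1
  -- the set of visible points and the map
  set E : Set Bd := {c | ∃ z, S.OffPt z ∧ S.Vis z c} with hE
  let h : Bd → Bd := fun c => if hc : ∃ z, S.OffPt z ∧ S.Vis z c then A hc.choose • f c else c
  have hh : ∀ z c, S.OffPt z → S.Vis z c → h c = A z • f c := by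
    intro z c hz hc
    have hex : ∃ z, S.OffPt z ∧ S.Vis z c := ⟨z, hz, hc⟩
    have : h c = A hex.choose • f c := dif_pos hex
    rw [this]
    exact hXE4 Γ hΓ S f r (fun p => -T p) A hconj hPM _ _ c hex.choose_spec.1 hz
      hex.choose_spec.2 hc
  have hcyc : ∀ x ∈ E, ∀ y ∈ E, ∀ z ∈ E, Cyc x y z → Cyc (h x) (h y) (h z) := by
    rintro x ⟨z1, hz1, hv1⟩ y ⟨z2, hz2, hv2⟩ z ⟨z3, hz3, hv3⟩ hxyz
    rw [hh z1 x hz1 hv1, hh z2 y hz2 hv2, hh z3 z hz3 hv3]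
    exact hXE6 Γ hΓ S f r (fun p => -T p) A hconj hPM z1 z2 z3 x y z hz1 hz2 hz3 hv1 hv2 hv3 hxyz
  have hdense : ∀ x y, x ≠ y → ∃ e ∈ E, Cyc x e y := by
    intro x y hxy
    have hid : IsConjBy Γ (Equiv.refl Bd) id := ⟨fun x y z h => h, fun γ _ x => rfl⟩
    have hpm : S.IsPlaqueMap (fun p => twS (id (gen Γ p)) ((fun _ => (-0 : ℝ)) p))
        (fun _ => (1 : SL(2, ℝ))) := by
      refine ⟨fun _ _ _ _ _ => rfl, fun z z' p _ _ _ => ?_⟩
      change (1 : SL(2, ℝ)) = 1 * twS (gen Γ p) (-0)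
      rw [XE8_twS_zero, one_mul]
    obtain ⟨z, c, hz, hv, hc⟩ := hXE7 Γ hΓ S (Equiv.refl Bd) id (fun _ => -0) (fun _ => 1) hid hpm
      x y hxy
    refine ⟨c, ⟨z, hz, hv⟩, ?_⟩
    have h1 : (1 : SL(2, ℝ)) • (Equiv.refl Bd) c = c := by
      rw [one_smul]
      rfl
    rwa [h1] at hc
  have hdense2 : ∀ x y, x ≠ y → ∃ e ∈ E, Cyc x (h e) y := by
    intro x y hxy
    obtain ⟨z, c, hz, hv, hc⟩ := hXE7 Γ hΓ S f r (fun p => -T p) A hconj hPM x y hxy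
    exact ⟨c, ⟨z, hz, hv⟩, by rw [hh z c hz hv]; exact hc⟩
  obtain ⟨f', hf'E, hf'c⟩ := hXE1 E h hcyc hdense hdense2
  refine ⟨f', ⟨hf'c, ?_⟩, hPM, ?_⟩
  · intro γ hγ x
    set g : SL(2, ℝ) := A (γ • z₀) * r γ with hg
    -- both maps preserve the cyclic order and agree on `E`
    have key := hXE2.1 E ((MulAction.toPerm γ : Equiv.Perm Bd).trans f')
      (f'.trans (MulAction.toPerm g : Equiv.Perm Bd)) hdense
      (fun x y z hxyz => hf'c _ _ _ ((hBD2 γ x y z).2 hxyz))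
      (fun x y z hxyz => (hBD2 g _ _ _).2 (hf'c _ _ _ hxyz)) ?_
    · have := congrArg (fun e : Bd ≃ Bd => e x) key
      exact this
    · rintro e ⟨z, hz, hv⟩
      change f' (γ • e) = g • f' e
      have hz' := (hPN5 Γ S).2.2.1 γ hγ z hz
      have hv' := XE8_vis hBD2 hPT1 S hγ hv
      rw [hf'E _ ⟨γ • z, hz', hv'⟩, hf'E _ ⟨z, hz, hv⟩, hh _ _ hz' hv', hh _ _ hz hv,
        hconj.2 γ hγ e]
      have h3 := XE8_peq (hcoc γ hγ z hz) (A z • f e)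
      rw [← hg] at h3
      rw [← h3, mul_smul, mul_smul, inv_smul_smul]
  · intro z hz c hc
    rw [hf'E c ⟨z, hz, hc⟩, hh z c hz hc]

end

end AdSBend
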